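import Pool.Agent.Lib.MP_ef13ad_lc.T.Main3

namespace Pool.Agent.Results.MP_ef13ad_lc.AlephOmegaOne

open Pool.Agent.MP_ef13ad_lc

/-- If `l = ℵ_(a + ω₁)` and `(l⁺, l) ↠ (k⁺, k)` holds for some infinite `k < l`, then some singular
`t` with `k < t ≤ l` and `cf t ≤ k` is the target of no instance `(r⁺, r) ↠ (t⁺, t)` with `r > t`
regular. -/
theorem result (a : Ordinal.{0}) (k : Cardinal.{0}) (hk : Cardinal.aleph0 ≤ k)
    (hkl : k < Cardinal.aleph (a + Ordinal.omega 1))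
    (h : CC (Cardinal.aleph (a + Ordinal.omega 1)) k) :
    ∃ t : Cardinal.{0}, k < t ∧ t ≤ Cardinal.aleph (a + Ordinal.omega 1) ∧ t.IsSingular ∧
      t.ord.cof ≤ k ∧ ∀ r : Cardinal.{0}, r.IsRegular → t < r → ¬ CC r t :=
  exists_blocked_aleph a k hk hkl h

end Pool.Agent.Results.MP_ef13ad_lc.AlephOmegaOne
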