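import Pool.Agent.Lib.MP_ef13ad_lc.F.Five

namespace Pool.Agent.Results.MP_ef13ad_lc.SingularPairs

open Pool.Agent.MP_ef13ad_lc

/-- For every ordinal `a`, with `m = ℵ_(a + ω·5)`, one of the five admissible pairs of singular
cardinals `(k, l) = (m, ℵ_(ω_(a + ω·5 + 1)))` and `(k, l) = (ℵ_(a + ω·i), m)`, `1 ≤ i ≤ 4`, fails
Chang's Conjecture `(l⁺, l) ↠ (k⁺, k)`. -/
theorem result (a : Ordinal.{0}) :
    ∃ k l : Cardinal.{0},
      ((k = Cardinal.aleph (a + Ordinal.omega0 * 5) ∧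
          l = Cardinal.aleph (Ordinal.omega (a + Ordinal.omega0 * 5 + 1))) ∨
        (l = Cardinal.aleph (a + Ordinal.omega0 * 5) ∧
          ∃ i : ℕ, 1 ≤ i ∧ i ≤ 4 ∧ k = Cardinal.aleph (a + Ordinal.omega0 * (i : Ordinal.{0})))) ∧
      Cardinal.aleph a < k ∧ k < l ∧
      l ≤ Cardinal.aleph (Ordinal.omega (a + Ordinal.omega0 * 5 + 1)) ∧
      k.IsSingular ∧ l.IsSingular ∧ (k < l.ord.cof ∨ k.ord.cof = l.ord.cof) ∧ ¬ CC l k :=
  five_pairs a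

end Pool.Agent.Results.MP_ef13ad_lc.SingularPairs
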