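import Pool.Agent.Lib.MP_ef13ad_lc.P.Main4

namespace Pool.Agent.Results.MP_ef13ad_lc.StrongLimitBlock

open Pool.Agent.MP_ef13ad_lc

/-- Let `l` be singular with `c ^ cf l < l` for all `c < l`, closed under a monotone function `g`.
If `(l⁺, l) ↠ (k⁺, k)` holds for some infinite `k < l`, then some singular `t` closed under `g`,
with `k < t ≤ l` and `cf t ≤ k`, is the target of no instance `(r⁺, r) ↠ (t⁺, t)` with `r > t`
regular. -/
theorem result (l k : Cardinal.{0}) (g : Cardinal.{0} → Cardinal.{0}) (hg : Monotone g)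
    (hk : Cardinal.aleph0 ≤ k) (hkl : k < l) (hs : l.IsSingular)
    (hp : ∀ c < l, c ^ l.ord.cof < l) (hl : ∀ c < l, g c < l) (h : CC l k) :
    ∃ t : Cardinal.{0}, k < t ∧ t ≤ l ∧ t.IsSingular ∧ (∀ c < t, g c < t) ∧ t.ord.cof ≤ k ∧
      ∀ r : Cardinal.{0}, r.IsRegular → t < r → ¬ CC r t :=
  exists_blocked_pow l k g hg hk hkl hs hp hl h

end Pool.Agent.Results.MP_ef13ad_lc.StrongLimitBlock
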